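import Mathlib
import Pool.Agent.H.MP_0ba956_nt.A

set_option autoImplicit false

namespace Pool.Agent.Results.MP_122cec_nt.Yes

open Pool.Agent.H.MP_0ba956_nt

/-- The compositum of all `D₄`-extensions of `ℚ` inside the algebraic closure. -/
noncomputable def QD4 : IntermediateField ℚ (AlgebraicClosure ℚ) :=
  sSup {L | IsGalois ℚ L ∧ Nonempty (Gal(L/ℚ) ≃* DihedralGroup 4)}

abbrev A := AlgebraicClosure ℚ

def R (x : A) : Prop := ∃ β ∈ QD4, β ^ 2 = x

lemma R.mem {x : A} (h : R (x ^ 2)) : x ∈ QD4 := by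
  obtain ⟨β, m, e⟩ := h
  rcases sq_eq_sq_iff_eq_or_eq_neg.1 e with rfl | rfl
  exacts [m, by simpa using neg_mem m]

lemma R.mul {x y : A} (a : R x) (b : R y) : R (x * y) := by
  obtain ⟨β, m, rfl⟩ := a
  obtain ⟨γ, m', rfl⟩ := b
  exact ⟨β * γ, mul_mem m m', mul_pow _ _ _⟩

lemma R.div {x y : A} (a : R x) (b : R y) : R (x / y) := by
  obtain ⟨β, m, rfl⟩ := a
  obtain ⟨γ, m', rfl⟩ := b
  exact ⟨β / γ, div_mem m m', div_pow _ _ _⟩

lemma root (u z : ℚ) (w : A) (hw : w ^ 2 = u) (hu : ¬ IsSquare u) (hn : z ^ 2 < u) :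
    R (z + w) ∧ R (z - w) := by
  obtain ⟨L, h1, h2, β, h3, γ, h4, h5, h6⟩ := dih u z w hw hu (not_isSquare_of_neg (by linarith))
    (not_isSquare_of_neg (mul_neg_of_pos_of_neg (by nlinarith) (by linarith)))
  have : L ≤ QD4 := le_sSup ⟨h1, h2⟩
  exact ⟨⟨β, this h3, h5⟩, γ, this h4, h6⟩

lemma ex (x : A) : ∃ w : A, w ^ 2 = x := IsAlgClosed.exists_pow_nat_eq x two_pos

lemma rat0 (d : ℚ) (h : 0 < d) : R d := by
  by_cases s : IsSquare d
  · obtain ⟨e, rfl⟩ := s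
    exact ⟨e, QD4.algebraMap_mem e, by simp [sq]⟩
  obtain ⟨w, hw⟩ := ex d
  obtain ⟨β, m, e⟩ := (root d 0 w hw s (by simpa)).1
  exact ⟨β ^ 2, pow_mem m _, by simpa [e]⟩

lemma neg1 : R (-1) := by
  obtain ⟨w, hw⟩ := ex (2 : ℚ)
  have := root 2 0 w hw (by simpa using (Nat.prime_two.not_isSquare)) (by simp)
  have w0 : w ≠ 0 := by rintro rfl; simp at hw
  simpa [w0, neg_div] using this.2.div this.1

lemma rat (d : ℚ) : R d := by
  rcases lt_trichotomy d 0 with h | rfl | h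
  exacts [by simpa using neg1.mul (rat0 (-d) (by simpa)), ⟨0, zero_mem _, by simp⟩, rat0 d h]

lemma rt (u z : ℚ) (w : A) (hw : w ^ 2 = u) (hn : z ^ 2 ≤ u) : R (z + w) := by
  by_cases s : IsSquare u
  · obtain ⟨e, rfl⟩ := s
    rcases sq_eq_sq_iff_eq_or_eq_neg.1 (hw.trans (by simp [sq] : _ = (e : A) ^ 2)) with rfl | rfl
    exacts [by simpa using rat (z + e), by simpa using rat (z + -e)]
  · exact (root u z w hw s (hn.lt_of_ne fun e => s ⟨z, by rw [← e, sq]⟩)).1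

lemma rt2 {u v : ℚ} {x y : A} (hx : x ^ 2 = u) (hy : y ^ 2 = v) (h0 : 0 ≤ u) (h : u ≤ v) :
    R (x + y) := by
  rcases h0.eq_or_lt with rfl | h1
  · simpa [pow_eq_zero_iff two_ne_zero |>.1 (hx.trans Rat.cast_zero)] using
      rt v 0 y hy (by simpa)
  have x0 : x ≠ 0 := by rintro rfl; exact h1.ne' (by simpa using hx.symm)
  have := (rt u 0 x hx (by simpa)).mul (rt (v / u) 1 (y / x) (by simp [div_pow, hx, hy])
    (by rwa [one_pow, one_le_div h1]))
  rwa [show (((0 : ℚ) : A) + x) * ((1 : ℚ) + y / x) = x + y by field_simp; simp] at this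

lemma cx {u v : ℚ} {x y I : A} (hx : x ^ 2 = u) (hy : y ^ 2 = v) (h0 : 0 ≤ u) (h : 0 ≤ v)
    (hI : I ^ 2 = -1) : R (x + y * I) := by
  have k : ∀ m : A, m ^ 2 = (u + v : ℚ) → x + m ≠ 0 → R (x + y * I) := fun m hm n => by
    have := R.div ⟨x + m + y * I, add_mem (add_mem (R.mem (hx ▸ rat u)) (R.mem (hm ▸ rat _)))
      (mul_mem (R.mem (hy ▸ rat v)) (R.mem (hI ▸ neg1))), rfl⟩
      ((rat 2).mul (rt2 hx hm h0 (by linarith)))
    rwa [show (x + m + y * I) ^ 2 / ((2 : ℚ) * (x + m)) = x + y * I by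
      push_cast at hm ⊢
      field_simp
      linear_combination hm - hx - hy + y ^ 2 * hI] at this
  obtain ⟨m, hm⟩ := ex (u + v : ℚ)
  by_cases a : x + m = 0
  · by_cases b : x + -m = 0
    · obtain rfl : x = 0 := by linear_combination (a + b) / 2
      obtain rfl : m = 0 := by simpa using a
      obtain rfl : y = 0 := pow_eq_zero_iff two_ne_zero |>.1 (by
        push_cast at hm; linear_combination hy + hx - hm)
      simpa using rat 0
    · exact k (-m) (by rwa [neg_sq]) b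
  · exact k m hm a

variable {K : IntermediateField ℚ A} {i j : K →+* K}

lemma pos (ra : ∀ y, i y = y → j y = y → ∃ d : ℚ, y = d) {ε δ a b c T : K} (e : ε ^ 2 = 1)
    (e' : δ ^ 2 = 1) (ia : i a = ε * a) (ib : i b = ε * b) (ic : i c = ε * c) (ja : j a = δ * a)
    (jb : j b = δ * b) (jc : j c = δ * c) {τ : ℚ} (hT : T = τ) (h : a ^ 2 + b ^ 2 + c ^ 2 = T ^ 2) :
    ∃ d : ℚ, 0 ≤ d ∧ (a : A) ^ 2 = d ∧ (τ = 0 → a = 0) := by
  have k : ∀ x, i x = ε * x → j x = δ * x → ∃ d : ℚ, a * x = d := fun x p q =>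
    ra _ (by rw [map_mul, ia, p]; linear_combination a * x * e)
      (by rw [map_mul, ja, q]; linear_combination a * x * e')
  obtain ⟨d, hd⟩ := k a ia ja
  obtain ⟨d2, h2⟩ := k b ib jb
  obtain ⟨d3, h3⟩ := k c ic jc
  have : d ^ 2 + d2 ^ 2 + d3 ^ 2 = d * τ ^ 2 := by
    have : (d : K) ^ 2 + d2 ^ 2 + d3 ^ 2 = d * τ ^ 2 := by
      rw [← hd, ← h2, ← h3, ← hT]; linear_combination a ^ 2 * h
    exact_mod_cast this
  refine ⟨d, by nlinarith [sq_nonneg τ], by simpa [sq] using congrArg K.val hd, fun t => ?_⟩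
  obtain rfl : d = 0 := by rw [t] at this; nlinarith
  simpa using hd

lemma minus (ra : ∀ y, i y = y → j y = y → ∃ d : ℚ, y = d) {p q r w : K} (ip : i p = q)
    (iq : i q = -p) (ir : i r = w) (iw : i w = -r) (jp : j p = r) (jq : j q = -w) (jr : j r = -p)
    (jw : j w = q) : (p : A) ∈ QD4 := by
  have i2 : i 2 = 2 := map_ofNat i 2
  have j2 : j 2 = 2 := map_ofNat j 2
  obtain ⟨τ, hT⟩ := ra (p ^ 2 + q ^ 2 + r ^ 2 + w ^ 2) (by simp [*]; ring) (by simp [*]; ring)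
  have k : ∀ ε δ a b c : K, ε ^ 2 = 1 ∧ δ ^ 2 = 1 ∧ i a = ε * a ∧ i b = ε * b ∧ i c = ε * c ∧
      j a = δ * a ∧ j b = δ * b ∧ j c = δ * c ∧
      a ^ 2 + b ^ 2 + c ^ 2 = (p ^ 2 + q ^ 2 + r ^ 2 + w ^ 2) ^ 2 → _ ∧ _ ∧ _ :=
    fun ε δ a b c ⟨e, e', h1, h2, h3, h4, h5, h6, h⟩ => ⟨pos ra e e' h1 h2 h3 h4 h5 h6 hT h,
      pos ra e e' h2 h1 h3 h5 h4 h6 hT (by rw [← h]; ring),
      pos ra e e' h3 h1 h2 h6 h4 h5 hT (by rw [← h]; ring)⟩
  obtain ⟨⟨u1, a1, b1, c1⟩, ⟨u2, a2, b2, -⟩, u3, a3, b3, -⟩ := k 1 (-1)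
    (p ^ 2 + q ^ 2 - r ^ 2 - w ^ 2) (2 * (q * r - p * w)) (2 * (q * w + p * r)) (by
      simp only [map_add, map_sub, map_mul, map_pow, *]
      refine ⟨?_, ?_, ?_, ?_, ?_, ?_, ?_, ?_, ?_⟩ <;> first | ring1 | (rw [← hT]; ring1))
  obtain ⟨⟨v1, a4, b4, -⟩, ⟨-, -, -, c2⟩, -⟩ := k (-1) 1
    (2 * (q * r + p * w)) (p ^ 2 - q ^ 2 + r ^ 2 - w ^ 2) (2 * (r * w - p * q)) (by
      simp only [map_add, map_sub, map_mul, map_pow, *]
      refine ⟨?_, ?_, ?_, ?_, ?_, ?_, ?_, ?_, ?_⟩ <;> first | ring1 | (rw [← hT]; ring1))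
  obtain ⟨⟨w1, a5, b5, -⟩, -, -, -, -, c3⟩ := k (-1) (-1)
    (2 * (p * r - q * w)) (2 * (r * w + p * q)) (p ^ 2 - q ^ 2 - r ^ 2 + w ^ 2) (by
      simp only [map_add, map_sub, map_mul, map_pow, *]
      refine ⟨?_, ?_, ?_, ?_, ?_, ?_, ?_, ?_, ?_⟩ <;> first | ring1 | (rw [← hT]; ring1))
  by_cases t : τ = 0
  · obtain rfl : p = 0 := pow_eq_zero_iff two_ne_zero |>.1 (by
      rw [t, Rat.cast_zero] at hT
      linear_combination (hT + c1 t + c2 t + c3 t) / 4)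
    exact zero_mem _
  have B0 : r ^ 2 + w ^ 2 ≠ 0 := fun h => t (by
    have := congrArg j h
    simp only [map_add, map_pow, jr, jw, map_zero] at this
    exact_mod_cast (by linear_combination this + h - hT : (τ : K) = 0))
  have B0 : (r : A) ^ 2 + w ^ 2 ≠ 0 := by exact_mod_cast B0
  have hT : (p : A) ^ 2 + q ^ 2 + r ^ 2 + w ^ 2 = τ := by simpa using congrArg K.val hT
  push_cast at b1 b2 b3 b4 b5
  rw [show ((2 : K) : A) = 2 from rfl] at b2 b3 b4 b5
  have le : u1 ≤ τ ^ 2 := by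
    have : (u1 : A) + u2 + u3 = τ ^ 2 := by rw [← b1, ← b2, ← b3, ← hT]; ring
    have : u1 + u2 + u3 = τ ^ 2 := by exact_mod_cast this
    linarith
  have B := (rt2 (x := -((p : A) ^ 2 + q ^ 2 - r ^ 2 - w ^ 2)) (y := τ) (by rwa [neg_sq])
    (Rat.cast_pow _ _).symm a1 le).mul (rat 2)
  have z : ∀ I : A, I ^ 2 = -1 → p + q * I ∈ QD4 := fun I hI => R.mem (by
    have := ((cx b5 b4 a5 a4 hI).mul (cx b3 b2 a3 a2 hI)).div B
    rwa [show _ / _ = ((p : A) + q * I) ^ 2 by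
      rw [← hT, div_eq_iff (by
        rw [show _ * _ = 4 * ((r : A) ^ 2 + w ^ 2) by push_cast; ring]
        exact mul_ne_zero (by norm_num) B0)]
      push_cast
      linear_combination (4 * ((q * r) ^ 2 - (p * w) ^ 2 - q ^ 2 * (r ^ 2 + w ^ 2)) : A) * hI]
      at this)
  obtain ⟨I, hI⟩ := ex (-1)
  rw [show (p : A) = (p + q * I + (p + q * -I)) / 2 by ring]
  exact div_mem (add_mem (z I hI) (z _ (by rwa [neg_sq]))) (ofNat_mem _ 2)

lemma plus (ra : ∀ y, i y = y → j y = y → ∃ d : ℚ, y = d) {p q r w : K} (ip : i p = q)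
    (iq : i q = p) (ir : i r = w) (iw : i w = r) (jp : j p = r) (jq : j q = w) (jr : j r = p)
    (jw : j w = q) : (p : A) ∈ QD4 := by
  have k : ∀ e : K, i e ^ 2 = e ^ 2 ∧ j e ^ 2 = e ^ 2 → (e : A) ∈ QD4 := fun e h => by
    obtain ⟨d, hd⟩ := ra (e ^ 2) (by rw [map_pow, h.1]) (by rw [map_pow, h.2])
    exact R.mem ((by simpa using congrArg K.val hd : (e : A) ^ 2 = d) ▸ rat d)
  have := add_mem (add_mem (k (p + q + r + w) ?_) (k (p + q - r - w) ?_))
    (add_mem (k (p - q + r - w) ?_) (k (p - q - r + w) ?_))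
  · rw [show (p : A) = _ / 4 from ?_]
    · exact div_mem this (ofNat_mem _ 4)
    push_cast; ring
  all_goals
    simp only [map_add, map_sub, *]
    constructor <;> ring

open QuaternionGroup in
theorem result (K : IntermediateField ℚ (AlgebraicClosure ℚ)) [IsGalois ℚ K]
    (h : Nonempty (Gal(K/ℚ) ≃* QuaternionGroup 2)) : K ≤ QD4 := fun y hy => by
  obtain ⟨e⟩ := h
  obtain ⟨s, hs⟩ : ∃ s : QuaternionGroup 2 → K →+* K, ∀ g x, s g x = e.symm g x :=
    ⟨fun g => e.symm g, fun _ _ => rfl⟩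
  have m : ∀ {g h k} (x : K), g * h = k → s g (s h x) = s k x := by
    rintro g h _ x rfl; simp [hs]
  have o : ∀ x, s 1 x = x := by simp [hs]
  have ra : ∀ y, s (a 1) y = y → s (xa 0) y = y → ∃ d : ℚ, y = d := fun y h1 h2 => by
    obtain ⟨d, hd⟩ := (InfiniteGalois.mem_range_algebraMap_iff_fixed (k := ℚ) y).2 fun f => by
      have k : ∀ g h, s g y = y → s h y = y → s (g * h) y = y := fun g h p q => by
        rw [← m y rfl, q, p]
      have h3 := k _ _ h1 h1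
      have : ∀ g : QuaternionGroup 2, g ∈ [1, a 1, a 1 * a 1, a 1 * a 1 * a 1, xa 0, xa 0 * a 1,
        xa 0 * (a 1 * a 1), xa 0 * (a 1 * a 1 * a 1)] := by decide
      have : s (e f) y = y := by
        have := this (e f)
        simp only [List.mem_cons, List.not_mem_nil, or_false] at this
        rcases this with h | h | h | h | h | h | h | h <;> rw [h]
        exacts [o y, h1, h3, k _ _ h3 h1, h2, k _ _ h2 h1, k _ _ h2 h3, k _ _ h2 (k _ _ h3 h1)]
      simpa [hs] using this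
    exact ⟨d, hd.symm⟩
  obtain ⟨x, rfl⟩ : ∃ x : K, x = y := ⟨⟨y, hy⟩, rfl⟩
  have z : ∀ (ε p : K), s (a 2) p = ε * p → (∀ g, s g ε = ε) → ∀ {g h k}, g * h = k * a 2 →
      s g (s h p) = ε * s k p := fun ε p hp hε g h k e => by
    rw [m p e, ← m p rfl, hp, map_mul, hε]
  have z1 := fun {g h k} => z 1 (x + s (a 2) x) (by
    rw [map_add, m (k := 1) x (by decide), o]; ring) (by simp) (g := g) (h := h) (k := k)
  have z2 := fun {g h k} => z (-1) (x - s (a 2) x) (by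
    rw [map_sub, m (k := 1) x (by decide), o]; ring) (by simp) (g := g) (h := h) (k := k)
  simp only [one_mul, neg_one_mul] at z1 z2
  have := add_mem
    (plus ra (p := x + s (a 2) x) (w := s (a 1 * xa 0) _) rfl ((z1 (by decide)).trans (o _))
      (m _ rfl) (z1 (by decide)) rfl (z1 (by decide)) ((z1 (by decide)).trans (o _))
      (m _ (by decide)))
    (minus ra (p := x - s (a 2) x) (w := s (a 1 * xa 0) _) rfl
      ((z2 (k := 1) (by decide)).trans (by rw [o])) (m _ rfl) (z2 (by decide)) rfl (z2 (by decide))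
      ((z2 (k := 1) (by decide)).trans (by rw [o])) (m _ (by decide)))
  rw [show (x : A) = _ / 2 from ?_]
  · exact div_mem this (ofNat_mem _ 2)
  push_cast; ring

end Pool.Agent.Results.MP_122cec_nt.Yes
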